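import Pool.Agent.L7h66.UA.Stm

set_option autoImplicit false

/-!
# Project UA, part DEN: density
-/

namespace Pool.Agent.L7h78.UA

open Set Function
open Pool.Agent.L7h66.UA

section

variable {T : Tower} {W W' : Type} {ψ : ℕ → (W ≃ ℕ)} {ψ' : ℕ → (W' ≃ ℕ)}

/-- Labels of a high level determine the labels of lower levels. -/
theorem lab_anti (hψ : Coh T ψ) (hψ' : Coh T ψ') {m n : ℕ} (h : m ≤ n) {w : W} {w' : W'}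
    (hn : ∃ s ∈ T.S n, ψ' n w' = s (ψ n w)) : ∃ s ∈ T.S m, ψ' m w' = s (ψ m w) := by
  obtain ⟨s, hs, h1⟩ := hn
  obtain ⟨a, ha, h2⟩ := hψ.le h
  obtain ⟨b, hb, h3⟩ := hψ'.le h
  refine ⟨b * s * a⁻¹, (T.S m).mul_mem ((T.S m).mul_mem hb (T.S_anti_le h hs))
    ((T.S m).inv_mem ha), ?_⟩
  rw [h3, h1, h2, Equiv.Perm.mul_apply, Equiv.Perm.mul_apply]
  have : a⁻¹ (a (ψ n w)) = ψ n w := a.symm_apply_apply _
  rw [this]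

end

theorem s_DEN (hTYP : S_TYP) (hCEQ : S_CEQ) : S_DEN := by
  classical
  intro T γ hγ n v hv
  by_contra hcon
  push Not at hcon
  obtain ⟨c1, c2, c3', c4⟩ := hcon
  -- the finite set of the points of label `(n, v)`
  obtain ⟨Θ, hΘ⟩ : ∃ Θ : Set (ℕ × ℕ), Θ = {θ | θ.2 ∈ Cp T (γ θ.1).ψ (γ θ.1).w ∧
    ∃ s ∈ T.S n, (γ θ.1).ψ n θ.2 = s v} := ⟨_, rfl⟩
  have hΘfin : Θ.Finite := by
    have h1 : (⋃ k ∈ {k | ∃ u ∈ Cp T (γ k).ψ (γ k).w, ∃ s ∈ T.S n, (γ k).ψ n u = s v},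
        (Prod.mk k) '' {u | u ∈ Cp T (γ k).ψ (γ k).w ∧ ∃ s ∈ T.S n, (γ k).ψ n u = s v}).Finite :=
      Set.Finite.biUnion c2 fun k _ => (c3' k).image _
    refine h1.subset ?_
    rintro ⟨k, u⟩ hku
    rw [hΘ] at hku
    exact Set.mem_biUnion (show k ∈ {k | _} from ⟨u, hku.1, hku.2⟩) ⟨u, hku, rfl⟩
  -- claim A
  have hA : ∀ ψ : ℕ → (ℕ ≃ ℕ), Coh T ψ → ∀ w, w ∉ Din T ψ → (∃ s ∈ T.S n, ψ n w = s v) →
      ∃ θ ∈ Θ, Ty T ψ w (γ θ.1).ψ θ.2 := by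
    intro ψ hψ w hw hlab
    obtain ⟨k, hk⟩ := c4 ⟨ψ, hψ, w, hw⟩ hlab
    obtain ⟨u, hu, hT⟩ := (hCEQ T ℕ ℕ ℕ (γ k).ψ ψ ψ (γ k).coh hψ hψ (γ k).w w w (γ k).hw hw hk).1
    refine ⟨(k, u), ?_, hT⟩
    rw [hΘ]
    refine ⟨hu, ?_⟩
    obtain ⟨s, hs, h1⟩ := hlab
    obtain ⟨t, ht, h2⟩ := hT n
    exact ⟨t * s, (T.S n).mul_mem ht hs, by
      change (γ k).ψ n u = _
      rw [h2, h1, Equiv.Perm.mul_apply]⟩
  -- a point of label `(n, v)`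
  obtain ⟨θ₀, hθ₀⟩ : Θ.Nonempty := by
    have h1 := (T.S_inf n v hv).sdiff c1
    obtain ⟨u, ⟨s, hs, hu⟩, hu2⟩ := h1.nonempty
    have hu3 : u ∉ Din T (fun _ => Equiv.refl ℕ) := by
      rintro ⟨m, hm⟩
      exact hu2 ⟨⟨m, hm⟩, s, hs, hu.symm⟩
    obtain ⟨θ, hθ, -⟩ := hA _ coh_refl u hu3 ⟨s, hs, hu.symm⟩
    exact ⟨θ, hθ⟩
  -- a level which distinguishes the types
  obtain ⟨m, hnm, hm⟩ : ∃ m, n ≤ m ∧ ∀ θ ∈ Θ,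
      (∃ s ∈ T.S m, (γ θ.1).ψ m θ.2 = s ((γ θ₀.1).ψ m θ₀.2)) →
      Ty T (γ θ₀.1).ψ θ₀.2 (γ θ.1).ψ θ.2 := by
    have h1 : ∀ θ : ℕ × ℕ, ∃ m, (∃ s ∈ T.S m, (γ θ.1).ψ m θ.2 = s ((γ θ₀.1).ψ m θ₀.2)) →
        Ty T (γ θ₀.1).ψ θ₀.2 (γ θ.1).ψ θ.2 := by
      intro θ
      by_cases h : Ty T (γ θ₀.1).ψ θ₀.2 (γ θ.1).ψ θ.2
      · exact ⟨0, fun _ => h⟩
      · unfold Ty at h
        push Not at h
        obtain ⟨m, hm⟩ := h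
        exact ⟨m, fun ⟨s, hs, h1⟩ => absurd h1 (hm s hs)⟩
    choose M hM using h1
    obtain ⟨b, hb⟩ := (hΘfin.image M).bddAbove
    refine ⟨max n b, le_max_left _ _, fun θ hθ h2 => hM θ ?_⟩
    exact lab_anti (γ θ₀.1).coh (γ θ.1).coh
      ((hb (Set.mem_image_of_mem M hθ)).trans (le_max_right _ _)) h2
  have hθ₀' := hθ₀
  rw [hΘ] at hθ₀'
  obtain ⟨hu0, hl0⟩ := hθ₀'
  have hu0n : θ₀.2 ∉ Din T (γ θ₀.1).ψ := (γ θ₀.1).coh.cp_not (γ θ₀.1).hw hu0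
  -- the model with finitely many components
  obtain ⟨ψ, hψ, hfin⟩ := hγ θ₀.1
  -- the points with the label of `θ₀` at level `m`
  obtain ⟨L, hL⟩ : ∃ L : Set ℕ, L = {w | ∃ s ∈ T.S m, ψ m w = s ((γ θ₀.1).ψ m θ₀.2)} := ⟨_, rfl⟩
  have hLinf : L.Infinite := by
    have h1 := T.S_inf m ((γ θ₀.1).ψ m θ₀.2) (fun h => hu0n ⟨m, h⟩)
    intro h2
    refine h1 ((h2.image (ψ m)).subset ?_)
    rintro u ⟨s, hs, hu⟩
    refine ⟨(ψ m).symm u, ?_, (ψ m).apply_symm_apply u⟩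
    rw [hL]
    exact ⟨s, hs, by rw [(ψ m).apply_symm_apply, hu]⟩
  have hLn : ∀ w ∈ L, ∃ s ∈ T.S n, ψ n w = s v := by
    intro w hw
    rw [hL] at hw
    obtain ⟨s, hs, h1⟩ := lab_anti (γ θ₀.1).coh hψ hnm hw
    obtain ⟨t, ht, h2⟩ := hl0
    exact ⟨s * t, (T.S n).mul_mem hs ht, by rw [h1, h2, Equiv.Perm.mul_apply]⟩
  -- finitely many of them are algebraic
  have hLalg : (L ∩ Din T ψ).Finite := by
    obtain ⟨M, hM⟩ : ∃ M, ∀ d, ((∃ m, d ∈ T.D m) ∧ ∃ s ∈ T.S n, d = s v) → d ∈ T.D M := by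
      have h1 : ∀ d, ∃ m', (∃ m, d ∈ T.D m) → d ∈ T.D m' := by
        intro d
        by_cases h : ∃ m, d ∈ T.D m
        · obtain ⟨m, hm⟩ := h
          exact ⟨m, fun _ => hm⟩
        · exact ⟨0, fun h' => absurd h' h⟩
      choose N hN using h1
      obtain ⟨b, hb⟩ := (c1.image N).bddAbove
      exact ⟨b, fun d hd => T.D_le (hb (Set.mem_image_of_mem N hd)) (hN d hd.1)⟩
    refine ((c1.preimage (ψ M).injective.injOn)).subset ?_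
    rintro w ⟨hw, m', hm'⟩
    obtain ⟨s, hs, h1⟩ := hLn w hw
    -- a high level
    have h2 : ψ (max m' (max n M)) w ∈ T.D (max m' (max n M)) :=
      hψ.din_up (le_max_left _ _) hm'
    have hn1 : n ≤ max m' (max n M) := (le_max_left n M).trans (le_max_right _ _)
    have hM1 : M ≤ max m' (max n M) := (le_max_right n M).trans (le_max_right _ _)
    obtain ⟨t, ht, h3⟩ := hψ.le hn1
    have h4 : ψ (max m' (max n M)) w = (t⁻¹ * s) v := by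
      rw [Equiv.Perm.mul_apply, ← h1, h3]
      exact (t.symm_apply_apply _).symm
    have h5 : (∃ m, ψ (max m' (max n M)) w ∈ T.D m) ∧
        ∃ s ∈ T.S n, ψ (max m' (max n M)) w = s v :=
      ⟨⟨_, h2⟩, _, (T.S n).mul_mem ((T.S n).inv_mem ht) hs, h4⟩
    have h6 := hM _ h5
    obtain ⟨r, hr, h7⟩ := hψ.le hM1
    have h8 : ψ M w = ψ (max m' (max n M)) w := by
      rw [h7 w, T.S_D M r hr _ h6]
    change (∃ m, ψ M w ∈ T.D m) ∧ ∃ s ∈ T.S n, ψ M w = s v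
    rw [h8]
    exact h5
  -- each component has finitely many points of label `(n, v)`
  have hKfin : ∀ K ∈ {K : Set ℕ | ∃ w, w ∉ Din T ψ ∧ K = Cp T ψ w ∧
      CE T (γ θ₀.1).ψ (γ θ₀.1).w ψ w}, (K ∩ {x | ∃ s ∈ T.S n, ψ n x = s v}).Finite := by
    rintro K ⟨w, hw, rfl, x, hx, hT⟩
    obtain ⟨f, hf1, hf2, hf3⟩ := hTYP T ℕ ℕ (γ θ₀.1).ψ ψ (γ θ₀.1).coh hψ (γ θ₀.1).w x
      (γ θ₀.1).hw hT
    rw [hψ.cp_eq hw hx] at hf2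
    refine ((c3' θ₀.1).image f).subset ?_
    rintro z ⟨hz, s, hs, hzs⟩
    obtain ⟨u, hu, rfl⟩ := hf2.surjOn hz
    refine ⟨u, ⟨hu, ?_⟩, rfl⟩
    have hun : u ∉ Din T (γ θ₀.1).ψ := (γ θ₀.1).coh.cp_not (γ θ₀.1).hw hu
    obtain ⟨t, ht, h1⟩ := hf3 n u hu
    have h2 := h1 u (T.B_self n _ (fun h => hun ⟨n, h⟩))
    refine ⟨t⁻¹ * s, (T.S n).mul_mem ((T.S n).inv_mem ht) hs, ?_⟩
    rw [Equiv.Perm.mul_apply, ← hzs, h2]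
    exact (t.symm_apply_apply _).symm
  -- the contradiction
  refine (hLinf.sdiff hLalg) ((Set.Finite.biUnion hfin hKfin).subset ?_)
  rintro w ⟨hwL, hwn⟩
  have hwD : w ∉ Din T ψ := fun h => hwn ⟨hwL, h⟩
  obtain ⟨θ, hθ, hT⟩ := hA ψ hψ w hwD (hLn w hwL)
  have hwL' := hwL
  rw [hL] at hwL'
  obtain ⟨s, hs, h1⟩ := hwL'
  obtain ⟨t, ht, h2⟩ := hT m
  have h3 : Ty T (γ θ₀.1).ψ θ₀.2 (γ θ.1).ψ θ.2 := by
    refine hm θ hθ ⟨t * s, (T.S m).mul_mem ht hs, ?_⟩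
    rw [h2, h1, Equiv.Perm.mul_apply]
  have h4 : Ty T ψ w (γ θ₀.1).ψ θ₀.2 := hT.trans h3.symm
  have h5 : CE T ψ w (γ θ₀.1).ψ (γ θ₀.1).w := ⟨θ₀.2, hu0, h4⟩
  have h6 := (hCEQ T ℕ ℕ ℕ ψ (γ θ₀.1).ψ ψ hψ (γ θ₀.1).coh hψ w (γ θ₀.1).w w hwD (γ θ₀.1).hw h5).1
  exact Set.mem_biUnion (show Cp T ψ w ∈ {K : Set ℕ | _} from ⟨w, hwD, rfl, h6⟩)
    ⟨cp_self hwD, hLn w hwL⟩

end Pool.Agent.L7h78.UA
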