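import Pool.Agent.L7h66.UA.Stm

set_option autoImplicit false

/-!
# Project UA, part KON: isomorphisms of all levels give coherent ones
-/

namespace Pool.Agent.L7h78.UA

open Set Function
open Pool.Agent.L7h66.UA

theorem inv_app (g : Equiv.Perm ℕ) (x : ℕ) : g⁻¹ (g x) = x := g.symm_apply_apply x

theorem app_inv (g : Equiv.Perm ℕ) (x : ℕ) : g (g⁻¹ x) = x := g.apply_symm_apply x

/-- `S n` has finite index in `G n`. -/
theorem fin_index (T : Tower) (n : ℕ) : ∃ (κ : Type) (_ : Finite κ) (F : T.G n → κ),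
    ∀ g h : T.G n, F g = F h → (g : Equiv.Perm ℕ) * (h : Equiv.Perm ℕ)⁻¹ ∈ T.S n := by
  classical
  obtain ⟨R, hR⟩ := T.S_orb n
  choose τ hτ1 hτ2 using hR
  have hY : (⋃ r ∈ R, T.B n r).Finite := Set.Finite.biUnion R.finite_toSet fun r _ => T.B_fin n r
  have i1 : Finite (T.D n) := (T.D_fin n).to_subtype
  have i2 : Finite (⋃ r ∈ R, T.B n r : Set ℕ) := hY.to_subtype
  have i3 : ∀ r, Finite (T.B n r) := fun r => (T.B_fin n r).to_subtype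
  have i4 : Finite {r : ℕ // r ∈ R ∧ r ∉ T.D n} :=
    (R.finite_toSet.subset fun r (hr : r ∈ R ∧ r ∉ T.D n) => hr.1).to_subtype
  have hval : ∀ g : T.G n, ∀ r : {r : ℕ // r ∈ R ∧ r ∉ T.D n}, ∀ x : T.B n r.1,
      τ ((g : Equiv.Perm ℕ) r.1) ((g : Equiv.Perm ℕ) x.1) ∈ ⋃ r ∈ R, T.B n r := by
    intro g r x
    refine Set.mem_biUnion (hτ2 ((g : Equiv.Perm ℕ) r.1)) ?_
    have h1 : (g : Equiv.Perm ℕ) r.1 ∉ T.D n := fun h => r.2.2 ((T.D_G n g g.2 _).1 h)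
    rw [T.B_S (hτ1 _) h1]
    exact (T.B_G n g g.2 _ r.2.2 _).2 x.2
  refine ⟨(T.D n → T.D n) × ((r : {r : ℕ // r ∈ R ∧ r ∉ T.D n}) → (T.B n r.1 →
    (⋃ r ∈ R, T.B n r : Set ℕ))), inferInstance, fun g => (fun x => ⟨(g : Equiv.Perm ℕ) x.1,
      (T.D_G n g g.2 x.1).2 x.2⟩, fun r x => ⟨τ ((g : Equiv.Perm ℕ) r.1)
        ((g : Equiv.Perm ℕ) x.1), hval g r x⟩), ?_⟩
  intro g h hgh
  obtain ⟨e1, e2⟩ := Prod.mk.inj hgh
  have d1 : ∀ x ∈ T.D n, (g : Equiv.Perm ℕ) x = (h : Equiv.Perm ℕ) x := fun x hx =>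
    congrArg Subtype.val (congrFun e1 ⟨x, hx⟩)
  have d2 : ∀ r ∈ R, r ∉ T.D n → ∀ x ∈ T.B n r, τ ((g : Equiv.Perm ℕ) r)
      ((g : Equiv.Perm ℕ) x) = τ ((h : Equiv.Perm ℕ) r) ((h : Equiv.Perm ℕ) x) :=
    fun r hr hrD x hx => congrArg Subtype.val (congrFun (congrFun e2 ⟨r, hr, hrD⟩) ⟨x, hx⟩)
  clear hgh e1 e2
  obtain ⟨g, hg⟩ := g
  obtain ⟨h, hh⟩ := h
  change g * h⁻¹ ∈ T.S n
  have hh' : h⁻¹ ∈ T.G n := (T.G n).inv_mem hh
  have hhh : ∀ v, h (h⁻¹ v) = v := fun v => h.apply_symm_apply v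
  refine T.S_loc n _ ?_ ?_
  · intro v hv
    rw [Equiv.Perm.mul_apply]
    have h1 : h⁻¹ v ∈ T.D n := (T.D_G n _ hh' v).2 hv
    have h2 := d1 _ h1
    change g (h⁻¹ v) = h (h⁻¹ v) at h2
    rw [h2, hhh]
  · intro v hv
    have h1 : h⁻¹ v ∉ T.D n := fun h2 => hv ((T.D_G n _ hh' v).1 h2)
    obtain ⟨t, ht⟩ : ∃ t, t = τ (h⁻¹ v) := ⟨_, rfl⟩
    have ht1 : t ∈ T.S n := ht ▸ hτ1 _
    have ht2 : t (h⁻¹ v) ∈ R := ht ▸ hτ2 _
    have h3 : t (h⁻¹ v) ∉ T.D n := fun h2 => h1 ((T.D_S ht1 _).1 h2)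
    refine ⟨(g * t⁻¹ * g⁻¹) * (τ (g (t (h⁻¹ v))))⁻¹ * τ (h (t (h⁻¹ v))) * (h * t * h⁻¹), ?_, ?_⟩
    · refine (T.S n).mul_mem ((T.S n).mul_mem ((T.S n).mul_mem ?_ ?_) ?_) ?_
      · exact T.S_conj n g hg _ ((T.S n).inv_mem ht1)
      · exact (T.S n).inv_mem (hτ1 _)
      · exact hτ1 _
      · exact T.S_conj n h hh _ ht1
    · intro u hu
      have h4 : h⁻¹ u ∈ T.B n (h⁻¹ v) := (T.B_G n _ hh' v hv u).2 hu
      have h5 : t (h⁻¹ u) ∈ T.B n (t (h⁻¹ v)) := (T.B_S ht1 h1 _).2 h4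
      have h6 := d2 _ ht2 h3 _ h5
      change τ (g (t (h⁻¹ v))) (g (t (h⁻¹ u))) = τ (h (t (h⁻¹ v))) (h (t (h⁻¹ u))) at h6
      have h7 : τ (h (t (h⁻¹ v))) ((h * t * h⁻¹) u) = τ (g (t (h⁻¹ v))) (g (t (h⁻¹ u))) := h6.symm
      rw [Equiv.Perm.mul_apply _ (h * t * h⁻¹), Equiv.Perm.mul_apply _ (τ (h (t (h⁻¹ v)))), h7,
        Equiv.Perm.mul_apply _ (τ (g (t (h⁻¹ v))))⁻¹]
      have h8 : (τ (g (t (h⁻¹ v))))⁻¹ (τ (g (t (h⁻¹ v))) (g (t (h⁻¹ u)))) = g (t (h⁻¹ u)) :=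
        Equiv.symm_apply_apply _ _
      rw [h8]
      simp only [Equiv.Perm.mul_apply, inv_app]

theorem s_KON : S_KON := by
  classical
  intro T W θ hθ
  -- the transition from level `n` to level `N`
  let k : ℕ → ℕ → Equiv.Perm ℕ := fun N n => (θ n).symm.trans (θ N)
  have hk : ∀ n N, n ≤ N → k N n ∈ T.G n := by
    intro n N h
    induction N, h using Nat.le_induction with
    | base =>
      have : k n n = 1 := by
        ext x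
        exact (θ n).apply_symm_apply x
      rw [this]
      exact (T.G n).one_mem
    | succ N hN ih =>
      obtain ⟨g, hg, h1⟩ := hθ N
      have : k (N + 1) n = g⁻¹ * k N n := by
        ext x
        change θ (N + 1) ((θ n).symm x) = g⁻¹ (θ N ((θ n).symm x))
        rw [h1]
        exact (g.symm_apply_apply _).symm
      rw [this]
      exact (T.G n).mul_mem ((T.G n).inv_mem (T.G_anti_le hN hg)) ih
  let U : Ultrafilter ℕ := Filter.hyperfilter ℕ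
  have hU : ∀ n, {N | n ≤ N} ∈ U := fun n => by
    have h1 : {N | n ≤ N} ∈ (Filter.atTop : Filter ℕ) := Filter.mem_atTop n
    rw [← Nat.cofinite_eq_atTop] at h1
    exact Filter.mem_hyperfilter_of_finite_compl h1
  have hκ : ∀ n, ∃ κ ∈ T.G n, {N | κ * (k N n)⁻¹ ∈ T.S n} ∈ U := by
    intro n
    obtain ⟨κ, hκ1, F, hF⟩ := fin_index T n
    let F' : ℕ → κ := fun N => if h : n ≤ N then F ⟨k N n, hk n N h⟩ else F 1
    obtain ⟨c, hc⟩ := Ultrafilter.eq_pure_of_finite (U.map F')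
    have h1 : {N | F' N = c} ∈ U := by
      have h2 : {c} ∈ U.map F' := by
        rw [hc]
        exact Ultrafilter.mem_pure.2 rfl
      exact h2
    have h2 : {N | F' N = c} ∩ {N | n ≤ N} ∈ U := Filter.inter_mem h1 (hU n)
    obtain ⟨N₀, h3, h4⟩ := U.nonempty_of_mem h2
    refine ⟨k N₀ n, hk n N₀ h4, Filter.mem_of_superset h2 ?_⟩
    rintro N ⟨h5, h6⟩
    have h7 : F' N₀ = F' N := h3.trans h5.symm
    change (if h : n ≤ N₀ then F ⟨k N₀ n, hk n N₀ h⟩ else F 1) =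
      (if h : n ≤ N then F ⟨k N n, hk n N h⟩ else F 1) at h7
    rw [dif_pos (show n ≤ N₀ from h4), dif_pos (show n ≤ N from h6)] at h7
    exact hF _ _ h7
  choose κ hκ1 hκ2 using hκ
  refine ⟨fun n => (θ n).trans (κ n), fun n => ?_, fun n => ⟨κ n, hκ1 n, fun w => rfl⟩⟩
  have h1 := Filter.inter_mem (Filter.inter_mem (hκ2 n) (hκ2 (n + 1))) (hU (n + 1))
  obtain ⟨N, ⟨h2, h3⟩, h4⟩ := U.nonempty_of_mem h1
  refine ⟨(κ n * (k N n)⁻¹) * (κ (n + 1) * (k N (n + 1))⁻¹)⁻¹,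
    (T.S n).mul_mem h2 ((T.S n).inv_mem (T.S_anti n h3)), fun w => ?_⟩
  change κ n (θ n w) = ((κ n * (k N n)⁻¹) * (κ (n + 1) * (k N (n + 1))⁻¹)⁻¹)
    (κ (n + 1) (θ (n + 1) w))
  have h5 : (k N n)⁻¹ (θ N w) = θ n w := by
    have : k N n (θ n w) = θ N w := by
      change θ N ((θ n).symm (θ n w)) = θ N w
      rw [Equiv.symm_apply_apply]
    rw [← this]
    exact Equiv.symm_apply_apply _ _
  have h6 : k N (n + 1) (θ (n + 1) w) = θ N w := by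
    change θ N ((θ (n + 1)).symm (θ (n + 1) w)) = θ N w
    rw [Equiv.symm_apply_apply]
  simp only [mul_inv_rev, inv_inv, Equiv.Perm.mul_apply, inv_app]
  rw [h6, h5]

end Pool.Agent.L7h78.UA
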