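import Pool.Agent.L7h66.UA.Stm

set_option autoImplicit false

/-!
# Project UA, part SUB: the models on a union of pieces and on everything agree on finite sets
-/

namespace Pool.Agent.L7h78.UA

open Set Function
open Pool.Agent.L7h66.UA

section

variable {T : Tower} {W P : Type} {pc : W → P} {α : ℕ → W → ℕ} {ψ : ℕ → (W ≃ ℕ)}

theorem cmp_D (h : Cmp T pc α ψ) (n : ℕ) (w : W) : ψ n w ∈ T.D n ↔ α n w ∈ T.D n := by
  constructor
  · intro h1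
    by_contra h2
    obtain ⟨s, hs, h3⟩ := h.2 n w h2
    rw [h3 w rfl (T.B_self n _ h2), T.D_S hs] at h1
    exact h2 h1
  · intro h1
    rw [h.1 n w h1]
    exact h1

end

theorem s_SUB : S_SUB := by
  classical
  intro T W P pc α A ψ φ hs hA hψ hφ n Z
  obtain ⟨f, hf⟩ : ∃ f : ℕ → ℕ, ∀ (w : W) (hw : w ∈ A), f (ψ n w) = φ n ⟨w, hw⟩ := by
    refine ⟨fun x => if h : (ψ n).symm x ∈ A then φ n ⟨(ψ n).symm x, h⟩ else x, fun w hw => ?_⟩
    have h1 : (ψ n).symm (ψ n w) ∈ A := by rwa [Equiv.symm_apply_apply]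
    change (if h : (ψ n).symm (ψ n w) ∈ A then φ n ⟨(ψ n).symm (ψ n w), h⟩ else ψ n w) = _
    rw [dif_pos h1]
    congr 1
    exact Subtype.ext ((ψ n).symm_apply_apply w)
  have key : ∀ (w : W) (hw : w ∈ A), ψ n w ∉ T.D n → ∃ s ∈ T.S n, ∃ s' ∈ T.S n,
      ψ n w = s (α n w) ∧ φ n ⟨w, hw⟩ = s' (α n w) ∧ α n w ∉ T.D n ∧
      ∀ y ∈ T.B n (α n w), ∃ u, ∃ hu : u ∈ A, α n u = y ∧ ψ n u = s y ∧ φ n ⟨u, hu⟩ = s' y := by
    intro w hw h1
    have h2 : α n w ∉ T.D n := fun h => h1 ((cmp_D hψ n w).2 h)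
    obtain ⟨s, hs1, hs2⟩ := hψ.2 n w h2
    obtain ⟨s', hs1', hs2'⟩ := hφ.2 n ⟨w, hw⟩ h2
    refine ⟨s, hs1, s', hs1', hs2 w rfl (T.B_self n _ h2), hs2' ⟨w, hw⟩ rfl (T.B_self n _ h2), h2,
      fun y hy => ?_⟩
    obtain ⟨u, hu1, hu2⟩ := hs n w h2 y hy
    have hu : u ∈ A := hA w hw u hu1
    refine ⟨u, hu, hu2, ?_, ?_⟩
    · have := hs2 u hu1 (by rw [hu2]; exact hy)
      rw [this, hu2]
    · have := hs2' ⟨u, hu⟩ hu1 (by change α n u ∈ _; rw [hu2]; exact hy)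
      rw [this]
      change s' (α n u) = _
      rw [hu2]
  have e1 := T.S_ext n (Z.image fun z => ψ n z.1) f ?_ ?_ ?_
  · obtain ⟨s, hs1, hs2⟩ := e1
    refine ⟨s, hs1, fun z hz => ?_⟩
    have := (hs2 (ψ n z.1) (Finset.mem_image_of_mem _ hz)).1
    rw [this, hf z.1 z.2]
  · intro v hv hvD
    obtain ⟨z, -, rfl⟩ := Finset.mem_image.1 hv
    rw [hf z.1 z.2]
    have h1 := (cmp_D hψ n z.1).1 hvD
    rw [hψ.1 n z.1 h1]
    exact hφ.1 n z h1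
  · intro v hv hvD
    obtain ⟨z, -, rfl⟩ := Finset.mem_image.1 hv
    obtain ⟨s, hs1, s', hs1', h1, h2, h3, h4⟩ := key z.1 z.2 hvD
    refine ⟨s' * s⁻¹, (T.S n).mul_mem hs1' ((T.S n).inv_mem hs1), fun x hx => ?_⟩
    have h5 : s (s⁻¹ x) = x := s.apply_symm_apply x
    have h6 : s⁻¹ x ∈ T.B n (α n z.1) := by
      rw [← T.B_S hs1 h3, h5, ← h1]
      exact hx
    obtain ⟨u, hu, h7, h8, h9⟩ := h4 _ h6
    rw [h5] at h8
    rw [← h8, hf u hu, h9, h8]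
    rfl
  · intro v hv w hw hvD hwD hB
    obtain ⟨z, -, rfl⟩ := Finset.mem_image.1 hv
    obtain ⟨z', -, rfl⟩ := Finset.mem_image.1 hw
    rw [hf z.1 z.2, hf z'.1 z'.2] at hB
    obtain ⟨s, hs1, s', hs1', h1, h2, h3, h4⟩ := key z.1 z.2 hvD
    have h5 : s' (s'⁻¹ (φ n z')) = φ n z' := s'.apply_symm_apply _
    have h6 : s'⁻¹ (φ n z') ∈ T.B n (α n z.1) := by
      rw [← T.B_S hs1' h3, h5, ← h2]
      exact hB
    obtain ⟨u, hu, h7, h8, h9⟩ := h4 _ h6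
    rw [h5] at h9
    have h10 : (⟨u, hu⟩ : A) = z' := (φ n).injective h9
    have h11 : u = z'.1 := congrArg Subtype.val h10
    rw [← h11, h8, h1]
    exact (T.B_S hs1 h3 _).2 h6

end Pool.Agent.L7h78.UA
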